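import Pool.Agent.W398.SG.StmC

/-! Project SG, part C, T1: assembly of the induction (helper85). -/

set_option autoImplicit false

namespace Pool.Agent.W85.SG.T1

open Pool.Agent.W37.SG Pool.Agent.W398.SG.C

theorem main : S_CYC2 → S_EE → S_ZW → S_SYS → S_UNI0 → S_DD0 → S_T1 := by
  intro hCYC hEE hZW hSYS hUNI hDD p _ hp2
  have key : ∀ n : ℕ, ∀ (P T : Type) [Group P] [Finite P] [AddCommGroup T]
      [Module ℤ_[p] T] (ρ : Act p P T), Nat.card P = n → IsPGroup p P → IsLat p T → Uni p ρ →
      (∃ g x, ρ g x ≠ x) → DD p ρ := by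
    intro n
    induction n using Nat.strong_induction_on with
    | _ n ih =>
      intro P T _ _ _ _ ρ hn hP hL hU hnt
      by_cases hinj : Function.Injective ρ
      · by_cases hcyc : IsCyclic P
        · have hPn : Nontrivial P := by
            by_contra hc
            rw [not_nontrivial_iff_subsingleton] at hc
            obtain ⟨g, x, hgx⟩ := hnt
            apply hgx
            rw [Subsingleton.elim g 1, map_one]
            rfl
          exact hCYC p P T ρ hL hU hinj hP hcyc hPn
        · obtain ⟨z, w, h1, h2, h3, h4, h5⟩ := hZW p P hP (hEE p hp2 P hP hcyc)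
          obtain ⟨H, T₀, N, hS⟩ := hSYS p P T ρ hL hU hinj z w h1 h2 h3 h4 h5
          have h := hS.2.1
          obtain ⟨hL0, hU0⟩ := hUNI p P T ρ hL hU H T₀ N hS h
          have hcard : Nat.card H < n := by
            have h6 := Subgroup.card_mul_index H
            rw [hS.1, hn] at h6
            have h7 : 1 < p := (Fact.out : p.Prime).one_lt
            have h8 : 0 < Nat.card H := Nat.card_pos
            rw [← h6]
            exact lt_mul_of_one_lt_right h8 h7
          have hntH : ∃ (g : H) (x : T₀), restr ρ H T₀ h g x ≠ x := by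
            obtain ⟨g, hg, x, hx, hgx⟩ := hS.2.2.2.2.2.2.2
            refine ⟨⟨g, hg⟩, ⟨x, hx⟩, ?_⟩
            intro he
            exact hgx (congrArg Subtype.val he)
          have hDH := ih (Nat.card H) hcard H T₀ (restr ρ H T₀ h) rfl (hP.to_subgroup H) hL0 hU0 hntH
          exact hDD p P T ρ hL H T₀ N hS h hDH
      · -- the kernel
        have hK : ρ.ker ≠ ⊥ := by
          intro h
          exact hinj ((MonoidHom.ker_eq_bot_iff ρ).1 h)
        obtain ⟨ρ', hρ'⟩ : ∃ ρ' : Act p (P ⧸ ρ.ker) T,
            ∀ g : P, ρ' (QuotientGroup.mk' ρ.ker g) = ρ g :=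
          ⟨QuotientGroup.lift ρ.ker ρ le_rfl, fun g => rfl⟩
        have hsurj : Function.Surjective (QuotientGroup.mk' ρ.ker) := QuotientGroup.mk'_surjective _
        have hcard : Nat.card (P ⧸ ρ.ker) < n := by
          have h1 := Subgroup.card_eq_card_quotient_mul_card_subgroup ρ.ker
          have h2 : 1 < Nat.card ρ.ker := (Subgroup.one_lt_card_iff_ne_bot ρ.ker).2 hK
          have h3 : 0 < Nat.card (P ⧸ ρ.ker) := Nat.card_pos
          rw [hn] at h1
          rw [h1]
          exact lt_mul_of_one_lt_right h3 h2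
        have hU' : Uni p ρ' := by
          intro L L' hL1 hL2 hf1 hf2
          refine hU L L' ?_ ?_ hf1 hf2
          · intro g x hx
            rw [← hρ' g]
            exact hL1 _ x hx
          · intro g x hx
            rw [← hρ' g]
            exact hL2 _ x hx
        have hnt' : ∃ g x, ρ' g x ≠ x := by
          obtain ⟨g, x, hgx⟩ := hnt
          refine ⟨QuotientGroup.mk' ρ.ker g, x, ?_⟩
          rw [hρ' g]
          exact hgx
        obtain ⟨H', L, lam, m, a1, a2, a3, a4, a5, a6, a7, a8⟩ :=
          ih (Nat.card (P ⧸ ρ.ker)) hcard (P ⧸ ρ.ker) T ρ' rfl (hP.to_quotient ρ.ker) hL hU' hnt'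
        refine ⟨H'.comap (QuotientGroup.mk' ρ.ker), L, lam, m, ?_, a2, a3, ?_, a5, a6, ?_, ?_⟩
        · intro g x hx
          rw [← hρ' g]
          exact a1 _ x hx
        · intro g hg x hx
          rw [← hρ' g]
          exact a4 _ (Subgroup.mem_comap.1 hg) x hx
        · intro g hg
          rw [← hρ' g]
          exact a7 _ (fun h => hg (Subgroup.mem_comap.2 h))
        · rw [Subgroup.index_comap_of_surjective _ hsurj]
          exact a8
  intro P T _ _ _ _ ρ hP hL hU hnt
  exact key (Nat.card P) P T ρ rfl hP hL hU hnt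

end Pool.Agent.W85.SG.T1
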